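import Pool.Agent.helper84.LP.SpecP

set_option autoImplicit false

namespace Pool.Agent.LP

open MeasureTheory Set

/-- `Σ_(j ≤ n) j^(-s) ≤ 2 n^(1-s)` -/
theorem SSM_harm (s : ℝ) (hs0 : 0 ≤ s) (hs1 : s ≤ 1 / 2) : ∀ n : ℕ,
    ∑ j ∈ Finset.range n, ((j : ℝ) + 1) ^ (-s) ≤ 2 * (n : ℝ) ^ (1 - s) := by
  intro n
  induction n with
  | zero =>
      rw [Finset.range_zero, Finset.sum_empty]
      positivity
  | succ n ih =>
      rw [Finset.sum_range_succ]
      have hn : (0 : ℝ) ≤ n := Nat.cast_nonneg n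
      have hn1 : (0 : ℝ) < (n : ℝ) + 1 := by linarith
      have h1 : (n : ℝ) ^ (1 - s) = ((n : ℝ) + 1) ^ (1 - s) * (1 + (-(1 / ((n : ℝ) + 1)))) ^ (1 - s) := by
        rw [← Real.mul_rpow hn1.le (by
          have : 1 / ((n : ℝ) + 1) ≤ 1 := by
            rw [div_le_one hn1]; linarith
          linarith)]
        congr 1
        field_simp
        ring
      have h2 : (1 + (-(1 / ((n : ℝ) + 1)))) ^ (1 - s) ≤ 1 + (1 - s) * (-(1 / ((n : ℝ) + 1))) := by
        apply rpow_one_add_le_one_add_mul_self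
        · have : 1 / ((n : ℝ) + 1) ≤ 1 := by
            rw [div_le_one hn1]; linarith
          linarith
        · linarith
        · linarith
      have h3 : (n : ℝ) ^ (1 - s) ≤ ((n : ℝ) + 1) ^ (1 - s) - (1 - s) * ((n : ℝ) + 1) ^ (-s) := by
        rw [h1]
        have h4 : ((n : ℝ) + 1) ^ (-s) = ((n : ℝ) + 1) ^ (1 - s) * (1 / ((n : ℝ) + 1)) := by
          have h5 : -s = (1 - s) - 1 := by ring
          rw [h5, Real.rpow_sub hn1, Real.rpow_one]
          ring_nf
        rw [h4]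
        have h6 : 0 ≤ ((n : ℝ) + 1) ^ (1 - s) := by positivity
        nlinarith [mul_le_mul_of_nonneg_left h2 h6]
      have h7 : 0 ≤ ((n : ℝ) + 1) ^ (-s) := by positivity
      push_cast
      nlinarith

theorem SSM_sep (s N X : ℝ) (XX : Finset ℝ) (hs0 : 0 ≤ s) (hs1 : s ≤ 1 / 2) (hN : 0 < N)
    (hsep : ∀ A ∈ XX, ∀ B ∈ XX, A ≠ B → 1 ≤ N * |A - B|) (hne : XX.Nonempty) :
    ∑ A ∈ XX, (1 + N * |X - A|) ^ (-s) ≤ 7 * (XX.card : ℝ) ^ (1 - s) := by
  classical
  set n := XX.card with hn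
  have hn1 : 1 ≤ n := Finset.card_pos.2 hne
  have hnr : (1 : ℝ) ≤ n := by exact_mod_cast hn1
  set f : ℝ → ℤ := fun A => ⌊N * (A - X)⌋ with hf
  set g : ℕ → ℝ := fun j => (max 1 (j : ℝ)) ^ (-s) with hg
  have hinj : Set.InjOn f (XX : Set ℝ) := by
    intro A hA B hB hAB
    by_contra hne'
    have h1 := hsep A hA B hB hne'
    have h2 := Int.floor_le (N * (A - X))
    have h3 := Int.lt_floor_add_one (N * (A - X))
    have h4 := Int.floor_le (N * (B - X))
    have h5 := Int.lt_floor_add_one (N * (B - X))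
    have h6 : (⌊N * (A - X)⌋ : ℝ) = (⌊N * (B - X)⌋ : ℝ) := by exact_mod_cast hAB
    have h7 : |N * (A - B)| < 1 := by
      rw [abs_lt]; constructor <;> nlinarith
    rw [abs_mul, abs_of_pos hN] at h7
    linarith
  have hcard : (XX.image f).card = n := by
    rw [Finset.card_image_of_injOn hinj]
  have h1 : ∀ A ∈ XX, (1 + N * |X - A|) ^ (-s) ≤ g (f A).natAbs := by
    intro A _
    have h2 := Int.floor_le (N * (A - X))
    have h3 := Int.lt_floor_add_one (N * (A - X))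
    have h4 : |((⌊N * (A - X)⌋ : ℤ) : ℝ)| ≤ 1 + N * |X - A| := by
      have h5 : N * |X - A| = |N * (A - X)| := by
        rw [abs_mul, abs_of_pos hN, abs_sub_comm]
      rw [h5, abs_le]
      have h6 := neg_abs_le (N * (A - X))
      have h7 := le_abs_self (N * (A - X))
      constructor <;> linarith
    have h8 : (((f A).natAbs : ℕ) : ℝ) = |((⌊N * (A - X)⌋ : ℤ) : ℝ)| := by
      rw [hf]
      dsimp only
      rw [Nat.cast_natAbs, Int.cast_abs]
    rw [hg]
    dsimp only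
    rw [h8]
    apply Real.rpow_le_rpow_of_nonpos
    · exact lt_of_lt_of_le one_pos (le_max_left _ _)
    · apply max_le _ h4
      have : 0 ≤ N * |X - A| := by positivity
      linarith
    · linarith
  refine (Finset.sum_le_sum h1).trans ?_
  have h2 : ∑ A ∈ XX, g (f A).natAbs = ∑ k ∈ XX.image f, g k.natAbs := by
    rw [Finset.sum_image hinj]
  rw [h2, ← Finset.sum_filter_add_sum_filter_not (XX.image f) (fun k : ℤ => k.natAbs < n + 1)]
  have hgpos : ∀ j, 0 ≤ g j := by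
    intro j
    rw [hg]
    positivity
  have h3 : ∑ k ∈ (XX.image f).filter (fun k : ℤ => k.natAbs < n + 1), g k.natAbs ≤ 2 * (1 + 2 * (n : ℝ) ^ (1 - s)) := by
    have h4 : ∀ k ∈ (XX.image f).filter (fun k : ℤ => k.natAbs < n + 1), k.natAbs ∈ Finset.range (n + 1) := by
      intro k hk
      rw [Finset.mem_filter] at hk
      exact Finset.mem_range.2 hk.2
    rw [← Finset.sum_fiberwise_of_maps_to h4]
    have h5 : ∀ j ∈ Finset.range (n + 1), ∑ k ∈ ((XX.image f).filter (fun k : ℤ => k.natAbs < n + 1)).filter (fun k => k.natAbs = j), g k.natAbs ≤ 2 * g j := by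
      intro j _
      have h6 : ∀ k ∈ ((XX.image f).filter (fun k : ℤ => k.natAbs < n + 1)).filter (fun k => k.natAbs = j), g k.natAbs ≤ g j := by
        intro k hk
        rw [Finset.mem_filter] at hk
        rw [hk.2]
      refine (Finset.sum_le_card_nsmul _ _ _ h6).trans ?_
      rw [nsmul_eq_mul]
      apply mul_le_mul_of_nonneg_right _ (hgpos j)
      have h7 : ((XX.image f).filter (fun k : ℤ => k.natAbs < n + 1)).filter (fun k => k.natAbs = j) ⊆ {(j : ℤ), -(j : ℤ)} := by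
        intro k hk
        rw [Finset.mem_filter] at hk
        rw [Finset.mem_insert, Finset.mem_singleton]
        omega
      have h8 := (Finset.card_le_card h7).trans Finset.card_le_two
      exact_mod_cast h8
    refine (Finset.sum_le_sum h5).trans ?_
    rw [← Finset.mul_sum]
    apply mul_le_mul_of_nonneg_left _ (by norm_num)
    rw [Finset.sum_range_succ']
    have h6 : g 0 = 1 := by
      rw [hg]
      simp
    have h7 : ∑ j ∈ Finset.range n, g (j + 1) = ∑ j ∈ Finset.range n, ((j : ℝ) + 1) ^ (-s) := by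
      apply Finset.sum_congr rfl
      intro j _
      rw [hg]
      dsimp only
      push_cast
      rw [max_eq_right]
      have : (0 : ℝ) ≤ j := Nat.cast_nonneg j
      linarith
    rw [h6, h7]
    have := SSM_harm s hs0 hs1 n
    linarith
  have h4 : ∑ k ∈ (XX.image f).filter (fun k : ℤ => ¬ k.natAbs < n + 1), g k.natAbs ≤ (n : ℝ) ^ (1 - s) := by
    have h5 : ∀ k ∈ (XX.image f).filter (fun k : ℤ => ¬ k.natAbs < n + 1), g k.natAbs ≤ (n : ℝ) ^ (-s) := by
      intro k hk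
      rw [Finset.mem_filter] at hk
      have h6 : n ≤ k.natAbs := by omega
      have h7 : (n : ℝ) ≤ (k.natAbs : ℝ) := by exact_mod_cast h6
      rw [hg]
      dsimp only
      apply Real.rpow_le_rpow_of_nonpos
      · linarith
      · exact h7.trans (le_max_right _ _)
      · linarith
    refine (Finset.sum_le_card_nsmul _ _ _ h5).trans ?_
    rw [nsmul_eq_mul]
    have h6 : (((XX.image f).filter (fun k : ℤ => ¬ k.natAbs < n + 1)).card : ℝ) ≤ n := by
      have h7 := Finset.card_filter_le (XX.image f) (fun k : ℤ => ¬ k.natAbs < n + 1)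
      rw [hcard] at h7
      exact_mod_cast h7
    have h8 : (n : ℝ) ^ (1 - s) = n * (n : ℝ) ^ (-s) := by
      rw [sub_eq_add_neg, Real.rpow_add (by linarith), Real.rpow_one]
    rw [h8]
    exact mul_le_mul_of_nonneg_right h6 (by positivity)
  have h5 : 1 ≤ (n : ℝ) ^ (1 - s) := Real.one_le_rpow hnr (by linarith)
  linarith

theorem SSM_dy (S : Finset ℝ) (t r B a : ℝ) (hr : 1 ≤ r) (ha : a < 1 / 2) (hB : 0 ≤ B)
    (hc : ∀ R : ℝ, 1 ≤ R → ((S.filter fun u => |u - t| ≤ R).card : ℝ) ≤ B * R ^ a) :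
    ∑ u ∈ S.filter (fun u => r < |u - t|), 1 / |u - t| ≤ 6 * B * r ^ (a - 1) := by
  classical
  have hr0 : 0 < r := by linarith
  have hstep : ∀ K : ℕ, ∑ u ∈ S.filter (fun u => r < |u - t| ∧ |u - t| ≤ 2 ^ K * r), 1 / |u - t| ≤
      ∑ k ∈ Finset.range K, B * (2 ^ (k + 1) * r) ^ a / (2 ^ k * r) := by
    intro K
    induction K with
    | zero =>
        rw [Finset.range_zero, Finset.sum_empty]
        apply le_of_eq
        apply Finset.sum_eq_zero
        intro u hu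
        rw [Finset.mem_filter] at hu
        have h1 := hu.2.2
        rw [pow_zero, one_mul] at h1
        exact absurd h1 (not_le.2 hu.2.1)
    | succ K ih =>
        rw [Finset.sum_range_succ]
        have h1 : S.filter (fun u => r < |u - t| ∧ |u - t| ≤ 2 ^ (K + 1) * r) ⊆
            S.filter (fun u => r < |u - t| ∧ |u - t| ≤ 2 ^ K * r) ∪ S.filter (fun u => 2 ^ K * r < |u - t| ∧ |u - t| ≤ 2 ^ (K + 1) * r) := by
          intro u hu
          rw [Finset.mem_filter] at hu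
          rw [Finset.mem_union, Finset.mem_filter, Finset.mem_filter]
          rcases le_or_gt |u - t| (2 ^ K * r) with h | h
          · exact Or.inl ⟨hu.1, hu.2.1, h⟩
          · exact Or.inr ⟨hu.1, h, hu.2.2⟩
        have hnn : ∀ u : ℝ, 0 ≤ 1 / |u - t| := fun u => by positivity
        refine (Finset.sum_le_sum_of_subset_of_nonneg h1 (fun u _ _ => hnn u)).trans ?_
        have h2 : ∑ u ∈ S.filter (fun u => r < |u - t| ∧ |u - t| ≤ 2 ^ K * r) ∪ S.filter (fun u => 2 ^ K * r < |u - t| ∧ |u - t| ≤ 2 ^ (K + 1) * r), 1 / |u - t| ≤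
            ∑ u ∈ S.filter (fun u => r < |u - t| ∧ |u - t| ≤ 2 ^ K * r), 1 / |u - t| + ∑ u ∈ S.filter (fun u => 2 ^ K * r < |u - t| ∧ |u - t| ≤ 2 ^ (K + 1) * r), 1 / |u - t| := by
          rw [← Finset.sum_union_inter]
          have : 0 ≤ ∑ u ∈ S.filter (fun u => r < |u - t| ∧ |u - t| ≤ 2 ^ K * r) ∩ S.filter (fun u => 2 ^ K * r < |u - t| ∧ |u - t| ≤ 2 ^ (K + 1) * r), 1 / |u - t| :=
            Finset.sum_nonneg fun u _ => hnn u
          linarith
        refine h2.trans (add_le_add ih ?_)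
        have hp : (0 : ℝ) < 2 ^ K * r := by positivity
        have h3 : ∀ u ∈ S.filter (fun u => 2 ^ K * r < |u - t| ∧ |u - t| ≤ 2 ^ (K + 1) * r), 1 / |u - t| ≤ 1 / (2 ^ K * r) := by
          intro u hu
          rw [Finset.mem_filter] at hu
          exact one_div_le_one_div_of_le hp hu.2.1.le
        refine (Finset.sum_le_card_nsmul _ _ _ h3).trans ?_
        rw [nsmul_eq_mul, mul_one_div]
        apply div_le_div_of_nonneg_right _ hp.le
        have h4 : S.filter (fun u => 2 ^ K * r < |u - t| ∧ |u - t| ≤ 2 ^ (K + 1) * r) ⊆ S.filter (fun u => |u - t| ≤ 2 ^ (K + 1) * r) := by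
          intro u hu
          rw [Finset.mem_filter] at hu ⊢
          exact ⟨hu.1, hu.2.2⟩
        have h5 : ((S.filter (fun u => 2 ^ K * r < |u - t| ∧ |u - t| ≤ 2 ^ (K + 1) * r)).card : ℝ) ≤
            ((S.filter (fun u => |u - t| ≤ 2 ^ (K + 1) * r)).card : ℝ) := by
          exact_mod_cast Finset.card_le_card h4
        refine h5.trans (hc _ ?_)
        have h6 : (1 : ℝ) ≤ 2 ^ (K + 1) := one_le_pow₀ (by norm_num)
        nlinarith
  -- the geometric sum
  have hsq1 : Real.sqrt 2 ≤ 3 / 2 := by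
    rw [Real.sqrt_le_left (by norm_num)]
    norm_num
  have hsq2 : 4 / 3 ≤ Real.sqrt 2 := by
    apply Real.le_sqrt_of_sq_le
    norm_num
  have hterm : ∀ k : ℕ, B * (2 ^ (k + 1) * r) ^ a / (2 ^ k * r) ≤ B * r ^ (a - 1) * ((3 / 2) * (3 / 4) ^ k) := by
    intro k
    have h1 : ((2 : ℝ) ^ (k + 1) * r) ^ a = ((2 : ℝ) ^ (k + 1)) ^ a * r ^ a := Real.mul_rpow (by positivity) hr0.le
    have h2 : ((2 : ℝ) ^ (k + 1)) ^ a ≤ (Real.sqrt 2) ^ (k + 1) := by
      have h3 : (1 : ℝ) ≤ 2 ^ (k + 1) := one_le_pow₀ (by norm_num)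
      calc ((2 : ℝ) ^ (k + 1)) ^ a ≤ ((2 : ℝ) ^ (k + 1)) ^ (1 / 2 : ℝ) := Real.rpow_le_rpow_of_exponent_le h3 ha.le
        _ = (Real.sqrt 2) ^ (k + 1) := by
            rw [Real.sqrt_eq_rpow, ← Real.rpow_natCast, ← Real.rpow_natCast, ← Real.rpow_mul (by norm_num), ← Real.rpow_mul (by norm_num), mul_comm]
    have h3 : r ^ (a - 1) = r ^ a / r := by rw [Real.rpow_sub hr0, Real.rpow_one]
    have h4 : (Real.sqrt 2) ^ (k + 1) / 2 ^ k ≤ (3 / 2) * (3 / 4) ^ k := by
      have h5 : (Real.sqrt 2) ^ (k + 1) / 2 ^ k = Real.sqrt 2 * (Real.sqrt 2 / 2) ^ k := by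
        rw [pow_succ, div_pow]
        ring
      rw [h5]
      apply mul_le_mul hsq1 _ (by positivity) (by norm_num)
      apply pow_le_pow_left₀ (by positivity)
      linarith
    have hra : 0 ≤ r ^ a := by positivity
    rw [h1, h3]
    calc B * (((2 : ℝ) ^ (k + 1)) ^ a * r ^ a) / (2 ^ k * r) = B * (r ^ a / r) * (((2 : ℝ) ^ (k + 1)) ^ a / 2 ^ k) := by
          field_simp
      _ ≤ B * (r ^ a / r) * ((3 / 2) * (3 / 4) ^ k) := by
          apply mul_le_mul_of_nonneg_left _ (by positivity)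
          exact (div_le_div_of_nonneg_right h2 (by positivity)).trans h4
  have hgeo : ∀ K : ℕ, ∑ k ∈ Finset.range K, B * (2 ^ (k + 1) * r) ^ a / (2 ^ k * r) ≤ 6 * B * r ^ (a - 1) := by
    intro K
    refine (Finset.sum_le_sum fun k _ => hterm k).trans ?_
    rw [← Finset.mul_sum, ← Finset.mul_sum]
    have h1 : ∑ k ∈ Finset.range K, (3 / 4 : ℝ) ^ k ≤ 4 := by
      have h2 : ∑ k ∈ Finset.range K, (3 / 4 : ℝ) ^ k = 4 * (1 - (3 / 4) ^ K) := by
        rw [geom_sum_eq (by norm_num)]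
        ring
      rw [h2]
      have : (0 : ℝ) ≤ (3 / 4) ^ K := by positivity
      linarith
    have h3 : 0 ≤ B * r ^ (a - 1) := by positivity
    nlinarith
  obtain ⟨K, hK⟩ := pow_unbounded_of_one_lt (∑ u ∈ S, |u - t|) (by norm_num : (1 : ℝ) < 2)
  have hsub : S.filter (fun u => r < |u - t|) ⊆ S.filter (fun u => r < |u - t| ∧ |u - t| ≤ 2 ^ K * r) := by
    intro u hu
    rw [Finset.mem_filter] at hu ⊢
    refine ⟨hu.1, hu.2, ?_⟩
    have h1 : |u - t| ≤ ∑ v ∈ S, |v - t| := Finset.single_le_sum (f := fun v => |v - t|) (fun v _ => abs_nonneg _) hu.1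
    have h2 : (0 : ℝ) < 2 ^ K := by positivity
    nlinarith
  exact ((Finset.sum_le_sum_of_subset_of_nonneg hsub (fun u _ _ => by positivity)).trans (hstep K)).trans (hgeo K)

theorem SSM_in (C C1 a κ N T0 X X' t : ℝ) (S : Finset ℝ) (hC : 1 ≤ C) (hC1 : 1 ≤ C1) (ha0 : 0 ≤ a) (ha : a < 1 / 2)
    (hT0 : 1 ≤ T0) (hTN : T0 ≤ N) (hRG : RG N κ a S) (hS : ∀ u ∈ S, T0 ≤ |u| ∧ |u| ≤ C1 * N) (ht : T0 ≤ |t| ∧ |t| ≤ C1 * N)
    (hO1 : ∀ u T : ℝ, 0 ≤ T → T ≤ |t| → T ≤ |u| → ‖ip X t X' u‖ ≤ C / Real.sqrt (1 + T * |X - X'|))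
    (hO2 : ∀ u : ℝ, 8 * |X - X'| * max |t| |u| ≤ |t - u| → |t - u| * ‖ip X t X' u‖ ≤ C) :
    ∑ u ∈ S, ‖ip X t X' u‖ ≤ (8 * C1 + 12) * C * N ^ κ * (N / T0) * (1 + N * |X - X'|) ^ (a - 1 / 2) := by
  classical
  set Δ := |X - X'| with hΔ
  have hΔ0 : 0 ≤ Δ := abs_nonneg _
  have hN : 0 < N := by linarith
  have hT : 0 < T0 := by linarith
  set D := 1 + N * Δ with hD
  have hND : 0 ≤ N * Δ := by positivity
  have hD1 : 1 ≤ D := by rw [hD]; linarith
  have hD0 : 0 < D := by linarith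
  set r := max 1 (8 * C1 * N * Δ) with hr
  have hr1 : 1 ≤ r := le_max_left _ _
  have hr2 : 8 * C1 * N * Δ ≤ r := le_max_right _ _
  have hr0 : 0 < r := by linarith
  have hNT : 1 ≤ N / T0 := by rw [le_div_iff₀ hT]; linarith
  have hNk : 0 ≤ N ^ κ := by positivity
  rw [← Finset.sum_filter_add_sum_filter_not S (fun u => |u - t| ≤ r)]
  have hnear : ∑ u ∈ S.filter (fun u => |u - t| ≤ r), ‖ip X t X' u‖ ≤ 8 * C1 * C * N ^ κ * (N / T0) * D ^ (a - 1 / 2) := by
    have h1 : ∀ u ∈ S.filter (fun u => |u - t| ≤ r), ‖ip X t X' u‖ ≤ C / Real.sqrt (1 + T0 * Δ) := by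
      intro u hu
      rw [Finset.mem_filter] at hu
      exact hO1 u T0 hT.le ht.1 (hS u hu.1).1
    refine (Finset.sum_le_card_nsmul _ _ _ h1).trans ?_
    rw [nsmul_eq_mul]
    have h2 := hRG t r hr1
    have h3 : r ^ a ≤ 8 * C1 * D ^ a := by
      have h4 : r ≤ 8 * C1 * D := by
        apply max_le
        · nlinarith
        · rw [hD]; nlinarith
      calc r ^ a ≤ (8 * C1 * D) ^ a := Real.rpow_le_rpow hr0.le h4 ha0
        _ = (8 * C1) ^ a * D ^ a := Real.mul_rpow (by positivity) hD0.le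
        _ ≤ (8 * C1) * D ^ a := by
            apply mul_le_mul_of_nonneg_right _ (by positivity)
            calc (8 * C1) ^ a ≤ (8 * C1) ^ (1 : ℝ) := Real.rpow_le_rpow_of_exponent_le (by linarith) (by linarith)
              _ = 8 * C1 := Real.rpow_one _
    have h5 : 1 / Real.sqrt (1 + T0 * Δ) ≤ (N / T0) / Real.sqrt D := by
      have h6 : 0 < 1 + T0 * Δ := by positivity
      have h7 : 0 < Real.sqrt (1 + T0 * Δ) := Real.sqrt_pos.2 h6
      have h8 : 0 < Real.sqrt D := Real.sqrt_pos.2 hD0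
      rw [div_le_div_iff₀ h7 h8, one_mul]
      have h9 : D ≤ ((N / T0) * Real.sqrt (1 + T0 * Δ)) ^ 2 := by
        rw [mul_pow, Real.sq_sqrt h6.le, hD]
        have h10 : N * Δ = (N / T0) * (T0 * Δ) := by field_simp
        rw [h10]
        have h11 : N / T0 ≤ (N / T0) ^ 2 := by nlinarith
        have h12 : 0 ≤ T0 * Δ := by positivity
        nlinarith [mul_le_mul_of_nonneg_right h11 h12]
      exact (Real.sqrt_le_left (by positivity)).2 h9
    have h6 : D ^ a / Real.sqrt D = D ^ (a - 1 / 2) := by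
      rw [Real.rpow_sub hD0, Real.sqrt_eq_rpow]
    calc ((S.filter (fun u => |u - t| ≤ r)).card : ℝ) * (C / Real.sqrt (1 + T0 * Δ))
        ≤ (N ^ κ * r ^ a) * (C / Real.sqrt (1 + T0 * Δ)) := mul_le_mul_of_nonneg_right h2 (by positivity)
      _ ≤ (N ^ κ * (8 * C1 * D ^ a)) * (C / Real.sqrt (1 + T0 * Δ)) := by
          apply mul_le_mul_of_nonneg_right _ (by positivity)
          exact mul_le_mul_of_nonneg_left h3 hNk
      _ = (N ^ κ * (8 * C1 * D ^ a)) * C * (1 / Real.sqrt (1 + T0 * Δ)) := by ring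
      _ ≤ (N ^ κ * (8 * C1 * D ^ a)) * C * ((N / T0) / Real.sqrt D) := mul_le_mul_of_nonneg_left h5 (by positivity)
      _ = 8 * C1 * C * N ^ κ * (N / T0) * (D ^ a / Real.sqrt D) := by ring
      _ = 8 * C1 * C * N ^ κ * (N / T0) * D ^ (a - 1 / 2) := by rw [h6]
  have hfar : ∑ u ∈ S.filter (fun u => ¬ |u - t| ≤ r), ‖ip X t X' u‖ ≤ 12 * C * N ^ κ * (N / T0) * D ^ (a - 1 / 2) := by
    have h0 : S.filter (fun u => ¬ |u - t| ≤ r) = S.filter (fun u => r < |u - t|) := by
      apply Finset.filter_congr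
      intro u _
      exact not_le
    rw [h0]
    have h1 : ∀ u ∈ S.filter (fun u => r < |u - t|), ‖ip X t X' u‖ ≤ C * (1 / |u - t|) := by
      intro u hu
      rw [Finset.mem_filter] at hu
      have h2 : 0 < |u - t| := by linarith [hu.2]
      have h3 : 8 * Δ * max |t| |u| ≤ |t - u| := by
        have h4 : max |t| |u| ≤ C1 * N := max_le ht.2 (hS u hu.1).2
        have h5 : 8 * Δ * max |t| |u| ≤ 8 * Δ * (C1 * N) := mul_le_mul_of_nonneg_left h4 (by positivity)
        rw [abs_sub_comm]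
        have h6 := hu.2
        nlinarith
      have h4 := hO2 u h3
      rw [abs_sub_comm] at h4
      rw [mul_one_div, le_div_iff₀ h2]
      linarith
    refine (Finset.sum_le_sum h1).trans ?_
    rw [← Finset.mul_sum]
    have h2 := SSM_dy S t r (N ^ κ) a hr1 ha hNk (fun R hR => hRG t R hR)
    have h3 : r ^ (a - 1) ≤ 2 * D ^ (a - 1 / 2) := by
      have h4 : D / 2 ≤ r := by
        rw [hD]
        have h5 : N * Δ ≤ 8 * C1 * N * Δ := by nlinarith
        linarith
      calc r ^ (a - 1) ≤ (D / 2) ^ (a - 1) := Real.rpow_le_rpow_of_nonpos (by positivity) h4 (by linarith)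
        _ = D ^ (a - 1) * (2 : ℝ) ^ (1 - a) := by
            rw [Real.div_rpow hD0.le (by norm_num), div_eq_mul_inv, ← Real.rpow_neg (by norm_num)]
            ring_nf
        _ ≤ D ^ (a - 1 / 2) * 2 := by
            apply mul_le_mul
            · exact Real.rpow_le_rpow_of_exponent_le hD1 (by linarith)
            · calc (2 : ℝ) ^ (1 - a) ≤ (2 : ℝ) ^ (1 : ℝ) := Real.rpow_le_rpow_of_exponent_le (by norm_num) (by linarith)
                _ = 2 := Real.rpow_one _
            · positivity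
            · positivity
        _ = 2 * D ^ (a - 1 / 2) := by ring
    have hDp : 0 ≤ D ^ (a - 1 / 2) := by positivity
    calc C * ∑ u ∈ S.filter (fun u => r < |u - t|), 1 / |u - t| ≤ C * (6 * N ^ κ * r ^ (a - 1)) := mul_le_mul_of_nonneg_left h2 (by linarith)
      _ ≤ C * (6 * N ^ κ * (2 * D ^ (a - 1 / 2))) := by
          apply mul_le_mul_of_nonneg_left _ (by linarith)
          exact mul_le_mul_of_nonneg_left h3 (by positivity)
      _ = 12 * C * N ^ κ * D ^ (a - 1 / 2) * 1 := by ring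
      _ ≤ 12 * C * N ^ κ * D ^ (a - 1 / 2) * (N / T0) := mul_le_mul_of_nonneg_left hNT (by positivity)
      _ = 12 * C * N ^ κ * (N / T0) * D ^ (a - 1 / 2) := by ring
  calc _ ≤ 8 * C1 * C * N ^ κ * (N / T0) * D ^ (a - 1 / 2) + 12 * C * N ^ κ * (N / T0) * D ^ (a - 1 / 2) := add_le_add hnear hfar
    _ = (8 * C1 + 12) * C * N ^ κ * (N / T0) * D ^ (a - 1 / 2) := by ring

theorem SSM_proof (hOSI : OSI_stmt) : SSM_stmt := by
  obtain ⟨C, hC, hO⟩ := hOSI
  intro C1 hC1
  refine ⟨7 * ((8 * C1 + 12) * C), by nlinarith, ?_⟩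
  intro a κ N T0 XX T ha0 ha hκ hT0 hTN hX hsep X hXX t ht
  have hN : 0 < N := by linarith
  have hT : 0 < T0 := by linarith
  obtain ⟨hX1, -, hXt⟩ := hX X hXX
  have h1 : ∀ X' ∈ XX, ∑ t' ∈ T X', ‖ip X t X' t'‖ ≤ (8 * C1 + 12) * C * N ^ κ * (N / T0) * (1 + N * |X - X'|) ^ (-(1 / 2 - a)) := by
    intro X' hX'
    obtain ⟨hX'1, hRG, hX't⟩ := hX X' hX'
    have h2 := SSM_in C C1 a κ N T0 X X' t (T X') hC hC1 ha0 ha hT0 hTN hRG hX't (hXt t ht)
      (fun u S hS1 hS2 hS3 => (hO X X' t u hX1 hX'1).1 S hS1 hS2 hS3)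
      (fun u hu => (hO X X' t u hX1 hX'1).2 hu)
    have h3 : -(1 / 2 - a) = a - 1 / 2 := by ring
    rw [h3]
    exact h2
  refine (Finset.sum_le_sum h1).trans ?_
  rw [← Finset.mul_sum]
  have h2 := SSM_sep (1 / 2 - a) N X XX (by linarith) (by linarith) hN (fun A hA B hB hne => hsep A hA B hB hne) ⟨X, hXX⟩
  have h3 : 1 - (1 / 2 - a) = a + 1 / 2 := by ring
  rw [h3] at h2
  calc (8 * C1 + 12) * C * N ^ κ * (N / T0) * ∑ X' ∈ XX, (1 + N * |X - X'|) ^ (-(1 / 2 - a))
      ≤ (8 * C1 + 12) * C * N ^ κ * (N / T0) * (7 * (XX.card : ℝ) ^ (a + 1 / 2)) := by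
        apply mul_le_mul_of_nonneg_left h2
        positivity
    _ = 7 * ((8 * C1 + 12) * C) * N ^ κ * (N / T0) * (XX.card : ℝ) ^ (a + 1 / 2) := by ring

end Pool.Agent.LP
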